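import Pool.Agent.Lib.MP_9599cf_ntA.AccMain

/-!
# MP_9599cf_nt: the derived set of the Salem numbers of bounded length and number of monomials

For every `k` and every `B` (a natural number or infinity) let `TT B k` be the set of the Salem numbers
which are a root of a monic integer polynomial with at most `k` monomials and of length at most `B`,
all of whose other complex roots are in the closed unit disc, and `SS B k` the set of the Pisot numbers
which are a root of such a polynomial with at most `k / 2` monomials and of length at most `B / 2`. The
accumulation points of `TT B k` are in `SS B k`, and the elements `β` of `SS B k` are accumulation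
points of `TT B k`, provided that `k ≥ 7` and `B ≥ 2 a + 5` in case `β + 1 / β = a` is an integer.
-/

set_option autoImplicit false

namespace Pool.Agent.Results.MP_9599cf_nt.DerivedSet

open SalemLen Filter Topology

theorem result (B : ℕ∞) (k : ℕ) (β : ℝ) :
    (AccPt β (𝓟 (TT B k)) → β ∈ SS B k) ∧
      (β ∈ SS B k → (∀ a : ℕ, β + β⁻¹ = a → 7 ≤ k ∧ ((2 * a + 5 : ℕ) : ℕ∞) ≤ B) →
        AccPt β (𝓟 (TT B k))) :=
  accPt_TT B k β

end Pool.Agent.Results.MP_9599cf_nt.DerivedSet
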