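import Pool.Agent.Lib.MP_9599cf_ntL.Main3

/-!
# MP_9599cf_nt: Salem numbers with a multiple with few monomials

For every `k` and every `B` (a natural number or infinity) the set `TT B k` of the Salem numbers `t`
which are a root of a monic integer polynomial `P` with at most `k` monomials and of length at most
`B`, all of whose other complex roots are in the closed unit disc, is empty or has a least element.
-/

set_option autoImplicit false

namespace Pool.Agent.Results.MP_9599cf_nt.FewMonomials

open SalemLen

theorem result (B : ℕ∞) (k : ℕ) (hne : (TT B k).Nonempty) : ∃ t ∈ TT B k, ∀ s ∈ TT B k, t ≤ s :=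
  exists_least' B k hne

end Pool.Agent.Results.MP_9599cf_nt.FewMonomials
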