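import Pool.Agent.Lib.MP_9599cf_ntG.GMain

/-!
# MP_9599cf_nt: Lehmer's number is the only Salem number below 6/5 of the polynomials with five terms

`TT ⊤ 5` is the set of the Salem numbers which are a root of a monic integer polynomial with at most
five monomials (and arbitrary coefficients) all of whose other complex roots are in the closed unit
disc. Lehmer's number is its only element below `6 / 5`.
-/

set_option autoImplicit false

namespace Pool.Agent.Results.MP_9599cf_nt.LehmerIsolated

open SalemLen Polynomial

theorem result : ∃ t ∈ TT ⊤ 5,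
    Polynomial.aeval t (X ^ 10 + X ^ 9 - X ^ 7 - X ^ 6 - X ^ 5 - X ^ 4 - X ^ 3 + X + 1 : ℤ[X]) = 0 ∧
      t < 6 / 5 ∧ ∀ s ∈ TT ⊤ 5, s < 6 / 5 → s = t :=
  SalemGap.lehmer_isolated

end Pool.Agent.Results.MP_9599cf_nt.LehmerIsolated
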