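import Pool.Agent.Lib.MP_9599cf_ntS.Final

/-!
# The least Salem number whose trace field is completely split at a prime `p ≤ 3`

For `p = 2` and `p = 3` it is the Salem number `s` of degree four with
`s + 1 / s = (1 + √(25 - 4 p)) / 2` (`s = 2.0810...` for `p = 2`, `s = 1.7220...` for `p = 3`).
-/

set_option autoImplicit false

namespace Pool.Agent.Results.MP_9599cf_nt.SplitAtTwoOrThree

open SalemAb SalemSp

theorem result (p : ℕ) (hp : p = 2 ∨ p = 3) :
    ∃ s : ℝ, IsSalem s ∧ SplitsCompletely p (s + s⁻¹) ∧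
      s + s⁻¹ = (1 + √(25 - 4 * (p : ℝ))) / 2 ∧
      ∀ t : ℝ, IsSalem t → SplitsCompletely p (t + t⁻¹) → s ≤ t := by
  rcases hp with rfl | rfl
  · have e : (25 : ℝ) - 4 * ((2 : ℕ) : ℝ) = 17 := by norm_num
    rw [e]
    exact main_two
  · have e : (25 : ℝ) - 4 * ((3 : ℕ) : ℝ) = 13 := by norm_num
    rw [e]
    exact main_three

end Pool.Agent.Results.MP_9599cf_nt.SplitAtTwoOrThree
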